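import Pool.Agent.Helper20.RG.St2

/-!
# Project RG, module GD
-/

set_option autoImplicit false

open MeasureTheory Set Filter Topology
open scoped ENNReal RealInnerProductSpace

namespace Pool.Agent.Helper62.RG

open Pool.Agent.Helper20.RG
open Pool.Agent.Helper68.LM (Pl BB Bd Av HL ft fm DQ)

theorem hGD (hPT : StPT) : StGD := by
  intro Cf ρ Λ g x hCf hρ hΛ hg hHL k
  obtain ⟨-, -, hn, -, -, -, -, hS⟩ := hPT
  have h2 : (0 : ℝ) < (2 : ℝ) ^ k := by positivity
  have hSm : MeasurableSet (Sq x (Cf * (2 : ℝ) ^ k)) := (hS x _ (by positivity)).1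
  rw [← lintegral_indicator hSm]
  set F : Pl → ℝ≥0∞ := (Sq x (Cf * (2 : ℝ) ^ k)).indicator (fun y => ‖g y‖ₑ) with hF
  have hFm : Measurable F := (hg.1.enorm).indicator hSm
  have e1 : ∫⁻ y, F y = ∫⁻ y, F (x - y) := (lintegral_sub_left_eq_self F x).symm
  have hGm : Measurable (fun y => F (x - y)) := hFm.comp (measurable_const.sub measurable_id)
  have e2 : ∫⁻ w, F (x - (2 : ℝ) ^ k • w) =
      ENNReal.ofReal (((4 : ℝ) ^ k)⁻¹) * ∫⁻ y, F (x - y) := by
    have h3 := Measure.map_addHaar_smul (volume : Measure Pl) (ne_of_gt h2)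
    have h4 : ∫⁻ w, (fun y => F (x - y)) ((2 : ℝ) ^ k • w) =
        ∫⁻ y, F (x - y) ∂(Measure.map ((2 : ℝ) ^ k • ·) (volume : Measure Pl)) := by
      rw [lintegral_map hGm (measurable_const_smul _)]
    rw [h3, lintegral_smul_measure] at h4
    have h5 : ((2 : ℝ) ^ k) ^ Module.finrank ℝ Pl = (4 : ℝ) ^ k := by
      have : Module.finrank ℝ Pl = 2 := by
        simp [Pl, Pool.Agent.Helper61.Lacunary.Plane]
      rw [this, ← zpow_natCast, ← zpow_mul, mul_comm k, zpow_mul]
      norm_num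
    rw [h5, abs_of_pos (by positivity)] at h4
    exact h4
  have e3 : ∫⁻ w, F (x - (2 : ℝ) ^ k • w) ≤ ENNReal.ofReal Λ := by
    refine le_trans ?_ hHL
    refine le_trans ?_ (le_iSup _ k)
    rw [← lintegral_indicator Metric.isClosed_closedBall.measurableSet]
    refine lintegral_mono (fun w => ?_)
    rw [hF]
    by_cases hw : x - (2 : ℝ) ^ k • w ∈ Sq x (Cf * (2 : ℝ) ^ k)
    · have hw' : w ∈ Metric.closedBall (0 : Pl) ρ := by
        rw [mem_closedBall_zero_iff]
        obtain ⟨a0, a1⟩ := hw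
        have b0 : |w 0| ≤ Cf := by
          have : (x - (2 : ℝ) ^ k • w) 0 - x 0 = - ((2 : ℝ) ^ k * w 0) := by
            simp
          rw [this, abs_neg, abs_mul, abs_of_pos h2, mul_comm] at a0
          exact le_of_mul_le_mul_right a0 h2
        have b1 : |w 1| ≤ Cf := by
          have : (x - (2 : ℝ) ^ k • w) 1 - x 1 = - ((2 : ℝ) ^ k * w 1) := by
            simp
          rw [this, abs_neg, abs_mul, abs_of_pos h2, mul_comm] at a1
          exact le_of_mul_le_mul_right a1 h2
        linarith [(hn w).2.2.1]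
      rw [indicator_of_mem hw, indicator_of_mem hw']
    · rw [indicator_of_notMem hw]
      exact zero_le
  have e4 : ∫⁻ y, F (x - y) = ENNReal.ofReal ((4 : ℝ) ^ k) * ∫⁻ w, F (x - (2 : ℝ) ^ k • w) := by
    rw [e2, ← mul_assoc, ← ENNReal.ofReal_mul (by positivity), mul_inv_cancel₀ (by positivity)]
    simp
  rw [e1, e4, mul_comm Λ, ENNReal.ofReal_mul (by positivity)]
  gcongr

end Pool.Agent.Helper62.RG
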