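import Pool.Agent.Helper20.RG.St1
import Pool.Agent.Helper79.LM.M_PL

/-!
# Project RG, module L2B
-/

set_option autoImplicit false

open MeasureTheory Set Filter Topology
open scoped ENNReal RealInnerProductSpace

namespace Pool.Agent.Helper62.RG

open Pool.Agent.Helper20.RG
open Pool.Agent.Helper68.LM (Pl BB Bd Av HL ft fm DQ)

theorem core (N : ℕ) (T : ℤ → ℕ → Pl → ℝ) (μ : ℤ → ℕ → Pl → ℂ) (g : Pl → ℝ) (B : ℝ≥0∞)
    (hg : BB g)
    (hT : ∀ k, ∀ j < N, BB (T k j) ∧ ∀ ξ : Pl, ft (T k j) ξ = μ k j ξ * ft g ξ)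
    (hB : ∀ ξ : Pl, ξ ≠ 0 → ∑' k : ℤ, ∑ j ∈ Finset.range N, ‖μ k j ξ‖ₑ ^ 2 ≤ B) :
    ∑' k : ℤ, ∑ j ∈ Finset.range N, ∫⁻ x, ‖T k j x‖ₑ ^ 2 ≤ B * ∫⁻ x, ‖g x‖ₑ ^ 2 := by
  have hPL := Pool.Agent.Helper79.LM.hPL
  obtain ⟨hgm, hgP⟩ := hPL g hg
  have h1 : ∀ k : ℤ, ∑ j ∈ Finset.range N, ∫⁻ x, ‖T k j x‖ₑ ^ 2 =
      ∫⁻ ξ, ∑ j ∈ Finset.range N, ‖ft (T k j) ξ‖ₑ ^ 2 := by
    intro k
    rw [lintegral_finsetSum']
    · refine Finset.sum_congr rfl fun j hj => ?_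
      rw [(hPL _ (hT k j (Finset.mem_range.1 hj)).1).2]
    · intro j hj
      exact ((hPL _ (hT k j (Finset.mem_range.1 hj)).1).1.enorm.pow_const 2).aemeasurable
  simp_rw [h1]
  rw [← lintegral_tsum, ← hgP, ← lintegral_const_mul _ (hgm.enorm.pow_const 2)]
  · refine lintegral_mono_ae ?_
    have h0 : ∀ᵐ ξ : Pl, ξ ≠ 0 := by
      rw [ae_iff]
      simp
    filter_upwards [h0] with ξ hξ
    calc ∑' k : ℤ, ∑ j ∈ Finset.range N, ‖ft (T k j) ξ‖ₑ ^ 2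
        = ∑' k : ℤ, (∑ j ∈ Finset.range N, ‖μ k j ξ‖ₑ ^ 2) * ‖ft g ξ‖ₑ ^ 2 := by
          refine tsum_congr fun k => ?_
          rw [Finset.sum_mul]
          refine Finset.sum_congr rfl fun j hj => ?_
          rw [(hT k j (Finset.mem_range.1 hj)).2, enorm_mul, mul_pow]
      _ = (∑' k : ℤ, ∑ j ∈ Finset.range N, ‖μ k j ξ‖ₑ ^ 2) * ‖ft g ξ‖ₑ ^ 2 :=
          ENNReal.tsum_mul_right
      _ ≤ B * ‖ft g ξ‖ₑ ^ 2 := by gcongr; exact hB ξ hξ
  · intro k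
    refine Finset.aemeasurable_fun_sum _ fun j hj => ?_
    exact ((hPL _ (hT k j (Finset.mem_range.1 hj)).1).1.enorm.pow_const 2).aemeasurable

theorem hL2B : StL2B := by
  constructor
  · intro N T μ g B hg _ hT hB
    exact core N T (fun k j ξ => μ j ((2 : ℝ) ^ k • ξ)) g _ hg hT hB
  · intro N T μ g B hg _ hT hB
    have h2 : ∀ ξ : Pl, ξ ≠ 0 → ∑ j ∈ Finset.range N, ‖μ j ξ‖ₑ ^ 2 ≤ ENNReal.ofReal B := by
      intro ξ hξ
      refine le_trans (le_of_eq ?_) (ENNReal.ofReal_le_ofReal (hB ξ hξ))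
      rw [ENNReal.ofReal_sum_of_nonneg (fun j _ => by positivity)]
      refine Finset.sum_congr rfl fun j _ => ?_
      rw [ENNReal.ofReal_pow (norm_nonneg _), ofReal_norm]
    have hz : BB (fun _ : Pl => (0 : ℝ)) := ⟨measurable_const, 1, by simp, by simp⟩
    have hz2 : ∀ ξ : Pl, ft (fun _ : Pl => (0 : ℝ)) ξ = 0 := by
      intro ξ
      unfold ft
      rw [Real.fourier_eq]
      simp
    have h3 := core N (fun k j => if k = 0 then T j else fun _ => 0)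
      (fun k j ξ => if k = 0 then μ j ξ else 0) g (ENNReal.ofReal B) hg ?_ ?_
    · rw [tsum_eq_single (0 : ℤ)] at h3
      · simpa using h3
      · intro k hk
        simp [hk]
    · intro k j hj
      by_cases hk : k = 0
      · simp only [hk, if_true]
        exact hT j hj
      · simp only [hk, if_false, zero_mul]
        exact ⟨hz, hz2⟩
    · intro ξ hξ
      rw [tsum_eq_single (0 : ℤ)]
      · simpa using h2 ξ hξ
      · intro k hk
        simp [hk]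

end Pool.Agent.Helper62.RG
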