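import Pool.Agent.Helper2.RG.St

open scoped Pointwise NumberField
open NumberField Pool.RG

namespace Pool.Agent.Helper62.RG

theorem tOne (hP : StProf) : StOne := by
  intro l F _ hl hex P Q hPm hQm hlP hlQ
  refine (hP F).1 P Q hPm hQm ?_
  have : Algebra.IsIntegral (𝓞 F) (𝓞 Qb) := Algebra.IsIntegral.tower_top (R := ℤ)
  have h1 : ∀ R : Ideal (𝓞 Qb), R.IsMaximal → (l : 𝓞 Qb) ∈ R →
      (R.comap (algebraMap (𝓞 F) (𝓞 Qb))).IsMaximal ∧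
        (l : 𝓞 F) ∈ R.comap (algebraMap (𝓞 F) (𝓞 Qb)) := by
    intro R hR hl
    refine ⟨Ideal.isMaximal_comap_of_isIntegral_of_isMaximal R, ?_⟩
    rw [Ideal.mem_comap, map_natCast]
    exact hl
  have h2 : P.comap (algebraMap (𝓞 F) (𝓞 Qb)) = Q.comap (algebraMap (𝓞 F) (𝓞 Qb)) :=
    hex.unique (h1 P hPm hlP) (h1 Q hQm hlQ)
  intro x hx
  have hint : IsIntegral ℤ (⟨(x : Qb), hx⟩ : F) := by
    have h3 : IsIntegral ℤ (algebraMap F Qb (⟨(x : Qb), hx⟩ : F)) := x.isIntegral_coe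
    exact (isIntegral_algebraMap_iff (algebraMap F Qb).injective).1 h3
  let y : 𝓞 F := ⟨⟨(x : Qb), hx⟩, hint⟩
  have hy : algebraMap (𝓞 F) (𝓞 Qb) y = x := by
    apply RingOfIntegers.ext
    rfl
  have h4 : y ∈ P.comap (algebraMap (𝓞 F) (𝓞 Qb)) ↔ y ∈ Q.comap (algebraMap (𝓞 F) (𝓞 Qb)) := by
    rw [h2]
  rw [Ideal.mem_comap, Ideal.mem_comap, hy] at h4
  exact h4

end Pool.Agent.Helper62.RG
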